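import Pool.Agent.helper58.FF.Lower

open Polynomial UniqueFactorizationMonoid Filter Topology

namespace Pool.Agent.helper58.FF

variable {F : Type} [Field F]

theorem tends_aux {q θ : ℝ} (hθ : 0 < θ) (hθ1 : θ < 1) (c : ℝ) :
    Tendsto (fun x : ℝ => q * (x ^ (-θ) * (Real.log x + c)) + (Real.log x + c) / ((1 - θ) * Real.log x))
      atTop (𝓝 (q * 0 + 1 / (1 - θ))) := by
  apply Tendsto.add
  · apply Tendsto.const_mul
    have h1 : Tendsto (fun x : ℝ => Real.log x / x ^ θ) atTop (𝓝 0) :=
      (isLittleO_log_rpow_atTop hθ).tendsto_div_nhds_zero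
    have h2 : Tendsto (fun x : ℝ => c * x ^ (-θ)) atTop (𝓝 (c * 0)) :=
      (tendsto_rpow_neg_atTop hθ).const_mul c
    rw [mul_zero] at h2
    have h3 := h1.add h2
    rw [add_zero] at h3
    refine h3.congr' ?_
    filter_upwards [eventually_gt_atTop 0] with x hx
    rw [Real.rpow_neg hx.le]
    ring
  · have h1 : Tendsto (fun x : ℝ => 1 / (1 - θ) + c / (1 - θ) * (Real.log x)⁻¹) atTop
        (𝓝 (1 / (1 - θ) + c / (1 - θ) * 0)) :=
      (Real.tendsto_log_atTop.inv_tendsto_atTop.const_mul _).const_add _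
    rw [mul_zero, add_zero] at h1
    refine h1.congr' ?_
    filter_upwards [eventually_gt_atTop 1] with x hx
    have : 0 < Real.log x := Real.log_pos hx
    have h1θ : (1 - θ) ≠ 0 := by linarith
    field_simp

theorem asym {q η : ℝ} (hq : 2 ≤ q) (hη : 0 < η) :
    ∃ C' : ℝ, 0 ≤ C' ∧ ∀ D : ℝ, 1 ≤ D → ∀ w : ℝ, 0 ≤ w →
      (∀ L : ℝ, 0 < L → w ≤ q ^ (L + 1) + D / L) →
      w * Real.log (D * Real.log q) ≤ (1 + η) * (D * Real.log q) + C' := by
  have hlq : 0 < Real.log q := Real.log_pos (by linarith)
  have hl2 : Real.log 2 ≤ Real.log q := Real.log_le_log (by norm_num) hq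
  have hl2' := Real.log_two_gt_d9
  set θ : ℝ := η / (2 * (1 + η)) with hθ
  have hθ0 : 0 < θ := by positivity
  have hθ1 : θ < 1 := by
    rw [hθ, div_lt_one (by positivity)]; linarith
  have h1θ : 0 < 1 - θ := by linarith
  have hlim : q / Real.log q * 0 + 1 / (1 - θ) < 1 + η := by
    rw [mul_zero, zero_add, div_lt_iff₀ h1θ]
    have : (1 + η) * (1 - θ) = (1 + η) - η / 2 := by
      rw [hθ]; field_simp
    rw [this]; linarith
  have hev := (tends_aux (q := q / Real.log q) hθ0 hθ1 (Real.log (Real.log q))).eventually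
    (eventually_lt_nhds hlim)
  obtain ⟨x1, hx1⟩ := eventually_atTop.mp hev
  set x0 : ℝ := max x1 3 with hx0
  refine ⟨(q ^ (2 : ℝ) + x0) * max 0 (Real.log (x0 * Real.log q)), by
    have : 3 ≤ x0 := le_max_right _ _
    positivity, ?_⟩
  intro D hD w hw hL
  have hDlq : 0 < D * Real.log q := by positivity
  by_cases hDx : x0 ≤ D
  · have hD3 : 3 ≤ D := le_trans (le_max_right _ _) hDx
    have hg := hx1 D (le_trans (le_max_left _ _) hDx)
    have hlD : 0 < Real.log D := Real.log_pos (by linarith)
    have hDpos : 0 < D := by linarith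
    have hLpos : 0 < (1 - θ) * Real.log D / Real.log q := by positivity
    have h1 := hL _ hLpos
    have hll : Real.log (D * Real.log q) = Real.log D + Real.log (Real.log q) := by
      rw [Real.log_mul hDpos.ne' hlq.ne']
    have hll0 : 0 ≤ Real.log (D * Real.log q) := by
      apply Real.log_nonneg; nlinarith
    have hpow : q ^ ((1 - θ) * Real.log D / Real.log q + 1) = q * (D * D ^ (-θ)) := by
      rw [Real.rpow_add (by linarith), Real.rpow_one, mul_comm]
      congr 1
      rw [Real.rpow_def_of_pos (by linarith), Real.rpow_def_of_pos hDpos]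
      have e1 : Real.log q * ((1 - θ) * Real.log D / Real.log q) = Real.log D + Real.log D * (-θ) := by
        field_simp; ring
      rw [e1, Real.exp_add, Real.exp_log hDpos]
    have h2 : w ≤ q * (D * D ^ (-θ)) + D * Real.log q / ((1 - θ) * Real.log D) := by
      rw [hpow] at h1
      have : D / ((1 - θ) * Real.log D / Real.log q) = D * Real.log q / ((1 - θ) * Real.log D) := by
        field_simp
      rw [this] at h1; exact h1
    calc w * Real.log (D * Real.log q)
        ≤ (q * (D * D ^ (-θ)) + D * Real.log q / ((1 - θ) * Real.log D)) *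
          Real.log (D * Real.log q) := mul_le_mul_of_nonneg_right h2 hll0
      _ = (D * Real.log q) * (q / Real.log q * (D ^ (-θ) * (Real.log D + Real.log (Real.log q))) +
          (Real.log D + Real.log (Real.log q)) / ((1 - θ) * Real.log D)) := by
          rw [hll]
          field_simp
      _ ≤ (D * Real.log q) * (1 + η) := mul_le_mul_of_nonneg_left hg.le hDlq.le
      _ ≤ (1 + η) * (D * Real.log q) + (q ^ (2 : ℝ) + x0) * max 0 (Real.log (x0 * Real.log q)) := by
          have : 0 ≤ (q ^ (2 : ℝ) + x0) * max 0 (Real.log (x0 * Real.log q)) := by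
            have : 3 ≤ x0 := le_max_right _ _
            positivity
          linarith
  · rw [not_le] at hDx
    have h1 := hL 1 one_pos
    rw [div_one, show (1 : ℝ) + 1 = 2 by norm_num] at h1
    have h2 : Real.log (D * Real.log q) ≤ Real.log (x0 * Real.log q) :=
      Real.log_le_log hDlq (mul_le_mul_of_nonneg_right hDx.le hlq.le)
    have h3 : Real.log (D * Real.log q) ≤ max 0 (Real.log (x0 * Real.log q)) :=
      h2.trans (le_max_right _ _)
    have hq2 : 0 ≤ q ^ (2 : ℝ) := by positivity
    have h4 : w * Real.log (D * Real.log q) ≤ w * max 0 (Real.log (x0 * Real.log q)) :=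
      mul_le_mul_of_nonneg_left h3 hw
    have h5 : w * max 0 (Real.log (x0 * Real.log q)) ≤
        (q ^ (2 : ℝ) + x0) * max 0 (Real.log (x0 * Real.log q)) :=
      mul_le_mul_of_nonneg_right (by linarith) (le_max_left _ _)
    have h6 : 0 ≤ (1 + η) * (D * Real.log q) := by positivity
    linarith

theorem upper [Finite F] {α K : ℝ} (hα : 0 ≤ α) (hK : 0 < K) (h : 1 < K * (1 - α)) :
    ∃ C : ℝ, ∀ a b c : F[X], a ≠ 0 → b ≠ 0 → c ≠ 0 → IsCoprime a b → a + b = c →
      ¬ (derivative a = 0 ∧ derivative b = 0) →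
      max (nrm a) (max (nrm b) (nrm c)) < C * H α (a * b * c) ^ K := by
  classical
  set q : ℝ := (Nat.card F : ℝ) with hq
  have hq2 : (2 : ℝ) ≤ q := by
    rw [hq]; exact_mod_cast one_lt_q (F := F)
  have hlq : 0 < Real.log q := Real.log_pos (by linarith)
  set η : ℝ := (K - 1 - K * α) / (K * α + 1) with hη
  have hnum : 0 < K - 1 - K * α := by nlinarith
  have hden : 0 < K * α + 1 := by positivity
  have hη0 : 0 < η := by rw [hη]; positivity
  have hηle : K * α * (1 + η) ≤ K - 1 := by
    have h1 : K * α * η ≤ K - 1 - K * α := by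
      rw [hη, mul_div_assoc', div_le_iff₀ hden]
      nlinarith
    nlinarith
  obtain ⟨C', hC'0, hC'⟩ := asym hq2 hη0
  refine ⟨Real.exp (K * α * C'), ?_⟩
  intro a b c ha hb hc hab habc hder
  -- Mason-Stothers
  have hms := Polynomial.abc ha hb (neg_ne_zero.mpr hc) hab (by rw [habc]; ring)
  have hrad : radical (a * b * -c) = radical (a * b * c) := by
    rw [mul_neg, UniqueFactorizationDomain.radical_neg]
  rw [hrad, natDegree_neg] at hms
  have hms1 : a.natDegree + 1 ≤ (rad (a * b * c)).natDegree ∧
      b.natDegree + 1 ≤ (rad (a * b * c)).natDegree ∧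
      c.natDegree + 1 ≤ (rad (a * b * c)).natDegree := by
    rcases hms with h1 | h2
    · have e : rad (a * b * c) = radical (a * b * c) := by
        unfold rad; congr
      rw [e]; exact h1
    · exact absurd ⟨h2.1, h2.2.1⟩ hder
  set f := a * b * c with hf
  set D : ℝ := ((rad f).natDegree : ℝ) with hD
  have hD1 : 1 ≤ (rad f).natDegree := by omega
  have hD1R : 1 ≤ D := by rw [hD]; exact_mod_cast hD1
  have hHpos := H_pos (F := F) α f hD1
  have hlogH := log_H (F := F) α f hD1
  have hkey := hC' D hD1R (om f) (by positivity) (fun L hL => om_le f hL)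
  have hmain : D * Real.log q ≤ K * α * C' + K * Real.log (H α f) := by
    rw [hlogH]
    have h1 : K * α * (om f * Real.log (D * Real.log q)) ≤
        K * α * ((1 + η) * (D * Real.log q) + C') :=
      mul_le_mul_of_nonneg_left hkey (by positivity)
    have h2 : K * α * (1 + η) * (D * Real.log q) ≤ (K - 1) * (D * Real.log q) :=
      mul_le_mul_of_nonneg_right hηle (by positivity)
    have h3 : ((rad f).natDegree : ℝ) = D := rfl
    rw [h3]
    nlinarith
  have hnrm : ∀ g : F[X], g.natDegree + 1 ≤ (rad f).natDegree → nrm g < Real.exp (K * α * C') * H α f ^ K := by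
    intro g hg
    have hgp : 0 < nrm g := by unfold nrm; positivity
    rw [← Real.log_lt_log_iff hgp (mul_pos (Real.exp_pos _) (Real.rpow_pos_of_pos hHpos K)),
      Real.log_mul (Real.exp_pos _).ne' (Real.rpow_pos_of_pos hHpos K).ne', Real.log_exp,
      Real.log_rpow hHpos]
    refine lt_of_lt_of_le ?_ hmain
    unfold nrm
    rw [Real.log_pow]
    have : (g.natDegree : ℝ) < D := by
      rw [hD]; exact_mod_cast hg
    exact mul_lt_mul_of_pos_right this hlq
  exact max_lt (hnrm a hms1.1) (max_lt (hnrm b hms1.2.1) (hnrm c hms1.2.2))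

end Pool.Agent.helper58.FF
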