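import Pool.Agent.helper58.FF.Defs

open Polynomial UniqueFactorizationMonoid

namespace Pool.Agent.helper58.FF

variable {F : Type} [Field F]

open Classical in
theorem sum_natDegree (f : F[X]) :
    ∑ P ∈ primeFactors f, P.natDegree = (rad f).natDegree := by
  unfold rad radical
  rw [Polynomial.natDegree_prod]
  · rfl
  · intro P hP
    have := (mem_primeFactors.mp hP)
    exact (irreducible_of_normalized_factor P this).ne_zero

open Classical in
/-- counting prime factors: those of degree `< L` are few, the others have large degree. -/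
theorem om_le [Finite F] (f : F[X]) {L : ℝ} (hL : 0 < L) :
    (om f : ℝ) ≤ (Nat.card F : ℝ) ^ (L + 1) + ((rad f).natDegree : ℝ) / L := by
  have : Fintype F := Fintype.ofFinite F
  set S := primeFactors f with hS
  set A := S.filter (fun P => (P.natDegree : ℝ) < L) with hA
  set B := S.filter (fun P => ¬ (P.natDegree : ℝ) < L) with hB
  have hcard : S.card = A.card + B.card := by
    rw [hA, hB]; exact (Finset.card_filter_add_card_filter_not _).symm
  -- small ones
  have h1 : (A.card : ℝ) ≤ (Nat.card F : ℝ) ^ (L + 1) := by
    set m := ⌈L⌉₊ with hm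
    have hc : A.card ≤ (Finset.univ : Finset (Fin m → F)).card := by
      apply Finset.card_le_card_of_injOn (fun P => fun i : Fin m => P.coeff i)
      · intro P _; simp
      · intro P hP Q hQ hPQ
        have hP' : P.natDegree < m := by
          have := (Finset.mem_filter.mp (Finset.mem_coe.mp hP)).2
          exact_mod_cast (Nat.lt_ceil.mpr this)
        have hQ' : Q.natDegree < m := by
          have := (Finset.mem_filter.mp (Finset.mem_coe.mp hQ)).2
          exact_mod_cast (Nat.lt_ceil.mpr this)
        ext n
        by_cases hn : n < m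
        · exact congrFun hPQ ⟨n, hn⟩
        · rw [Polynomial.coeff_eq_zero_of_natDegree_lt (by omega),
            Polynomial.coeff_eq_zero_of_natDegree_lt (by omega)]
    rw [Finset.card_univ, Fintype.card_fun, Fintype.card_fin] at hc
    have hq1 : (1 : ℝ) ≤ (Nat.card F : ℝ) := by
      exact_mod_cast Nat.succ_le_of_lt Nat.card_pos
    calc (A.card : ℝ) ≤ ((Fintype.card F) ^ m : ℕ) := by exact_mod_cast hc
      _ = (Nat.card F : ℝ) ^ (m : ℝ) := by
          rw [Real.rpow_natCast, Nat.card_eq_fintype_card]; push_cast; rfl
      _ ≤ (Nat.card F : ℝ) ^ (L + 1) := by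
          apply Real.rpow_le_rpow_of_exponent_le hq1
          exact (Nat.ceil_lt_add_one hL.le).le
  have h2 : (B.card : ℝ) ≤ ((rad f).natDegree : ℝ) / L := by
    rw [le_div_iff₀ hL, ← sum_natDegree]
    push_cast
    calc (B.card : ℝ) * L = ∑ P ∈ B, L := by rw [Finset.sum_const, nsmul_eq_mul]
      _ ≤ ∑ P ∈ B, (P.natDegree : ℝ) := by
          apply Finset.sum_le_sum
          intro P hP
          exact not_lt.mp (Finset.mem_filter.mp hP).2
      _ ≤ ∑ P ∈ S, (P.natDegree : ℝ) := by
          apply Finset.sum_le_sum_of_subset_of_nonneg (Finset.filter_subset _ _)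
          intro P _ _; positivity
  have h3 : om f = S.card := rfl
  rw [h3, hcard]; push_cast; linarith

end Pool.Agent.helper58.FF
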