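import Mathlib

/-!
# The function field analogue of `H(n) = γ(n) / (log γ(n))^ω(n)`

Definitions for polynomials over a finite field `F` with `q` elements.
-/

open Polynomial UniqueFactorizationMonoid

namespace Pool.Agent.helper58.FF

variable {F : Type} [Field F]

/-- The absolute value `|f| = q^(deg f)`, `q = #F`. -/
noncomputable def nrm (f : F[X]) : ℝ := (Nat.card F : ℝ) ^ f.natDegree

open Classical in
/-- The radical: the product of the distinct monic irreducible divisors. -/
noncomputable def rad (f : F[X]) : F[X] := radical f

open Classical in
/-- `ω(f)`: the number of distinct monic irreducible divisors. -/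
noncomputable def om (f : F[X]) : ℕ := (primeFactors f).card

/-- `H_α(f) = |rad f| / (log |rad f|)^(α ω(f))`. -/
noncomputable def H (α : ℝ) (f : F[X]) : ℝ :=
  nrm (rad f) / (Real.log (nrm (rad f))) ^ (α * (om f : ℝ))

end Pool.Agent.helper58.FF
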