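import Pool.Agent.helper58.FF.Basic

open Polynomial UniqueFactorizationMonoid

namespace Pool.Agent.helper58.FF

variable {F : Type} [Field F]

theorem separable_sub [Finite F] {n : ℕ} (hn : n ≠ 0) :
    (X ^ (Nat.card F ^ n) - X : F[X]).Separable := by
  have : Fintype F := Fintype.ofFinite F
  obtain ⟨p, hp⟩ := CharP.exists F
  apply galois_poly_separable p
  have h1 : p ∣ Nat.card F := by
    have := (CharP.cast_eq_zero_iff F p (Nat.card F)).mp (by
      rw [Nat.card_eq_fintype_card]; exact Nat.cast_card_eq_zero F)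
    exact this
  exact h1.trans (dvd_pow_self _ hn)

theorem one_lt_q [Finite F] : 1 < Nat.card F := Finite.one_lt_card

/-- the radical of `(X^(D-1) - 1) X^(D-1)` has degree `D`, `D = q^n` -/
theorem rad_deg [Finite F] {n : ℕ} (hn : n ≠ 0) :
    (rad ((X ^ (Nat.card F ^ n - 1) - 1) * 1 * X ^ (Nat.card F ^ n - 1) : F[X])).natDegree
      = Nat.card F ^ n ∧ rad ((X ^ (Nat.card F ^ n - 1) - 1) * 1 * X ^ (Nat.card F ^ n - 1) : F[X])
        ∣ X ^ (Nat.card F ^ n) - X := by
  classical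
  set D := Nat.card F ^ n with hD
  have hD2 : 2 ≤ D := by
    have := one_lt_q (F := F)
    calc 2 ≤ Nat.card F := this
      _ ≤ Nat.card F ^ n := Nat.le_self_pow hn _
  have hsplit : (X ^ D - X : F[X]) = (X ^ (D - 1) - 1) * X := by
    rw [sub_mul, one_mul, ← pow_succ, Nat.sub_add_cancel (by omega)]
  have hne : (X ^ D - X : F[X]) ≠ 0 := (separable_sub (F := F) hn).ne_zero
  have hne1 : (X ^ (D - 1) - 1 : F[X]) ≠ 0 := by
    intro h; apply hne; rw [hsplit, h, zero_mul]
  have habc : ((X ^ (D - 1) - 1) * 1 * X ^ (D - 1) : F[X]) ≠ 0 := by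
    rw [mul_one]; exact mul_ne_zero hne1 (pow_ne_zero _ X_ne_zero)
  have hsq : Squarefree (X ^ D - X : F[X]) := (separable_sub (F := F) hn).squarefree
  have hr : IsRadical (X ^ D - X : F[X]) := hsq.isRadical
  have e1 : (X ^ D - X : F[X]) ∣ (X ^ (D - 1) - 1) * 1 * X ^ (D - 1) := by
    rw [hsplit, mul_one]
    exact mul_dvd_mul_left _ (dvd_pow_self _ (by omega))
  have e2 : (X ^ D - X : F[X]) ∣ rad ((X ^ (D - 1) - 1) * 1 * X ^ (D - 1) : F[X]) := by
    exact (dvd_radical_iff hr habc).mpr e1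
  have e3 : ((X ^ (D - 1) - 1) * 1 * X ^ (D - 1) : F[X]) ∣ (X ^ D - X) ^ (D - 1) := by
    rw [hsplit, mul_pow, mul_one]
    exact mul_dvd_mul_right (dvd_pow_self _ (by omega)) _
  have e4 : rad ((X ^ (D - 1) - 1) * 1 * X ^ (D - 1) : F[X]) ∣ (X ^ D - X) := by
    have h1 : radical ((X ^ (D - 1) - 1) * 1 * X ^ (D - 1) : F[X])
        ∣ radical ((X ^ D - X : F[X]) ^ (D - 1)) :=
      radical_dvd_radical e3 (pow_ne_zero _ hne)
    exact h1.trans (radical_pow_dvd.trans radical_dvd_self)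
  refine ⟨?_, e4⟩
  have hdeg : (X ^ D - X : F[X]).natDegree = D :=
    FiniteField.X_pow_card_sub_X_natDegree_eq F (by omega)
  have hr0 : rad ((X ^ (D - 1) - 1) * 1 * X ^ (D - 1) : F[X]) ≠ 0 := by
    unfold rad
    exact radical_ne_zero
  have i1 := Polynomial.natDegree_le_of_dvd e4 hne
  have i2 := Polynomial.natDegree_le_of_dvd e2 hr0
  rw [hdeg] at i1 i2
  exact le_antisymm i1 i2

theorem om_ge [Finite F] {n : ℕ} (hn : n ≠ 0) :
    Nat.card F ^ n ≤
      om ((X ^ (Nat.card F ^ n - 1) - 1) * 1 * X ^ (Nat.card F ^ n - 1) : F[X]) * n := by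
  classical
  obtain ⟨h1, h2⟩ := rad_deg (F := F) hn
  set f := ((X ^ (Nat.card F ^ n - 1) - 1) * 1 * X ^ (Nat.card F ^ n - 1) : F[X]) with hf
  rw [← h1, ← sum_natDegree]
  have h3 : om f = (primeFactors f).card := rfl
  rw [h3, ← smul_eq_mul, ← Finset.sum_const]
  apply Finset.sum_le_sum
  intro P hP
  have hPn := mem_primeFactors.mp hP
  have hirr := irreducible_of_normalized_factor P hPn
  have hPr : P ∣ rad f := by
    unfold rad radical
    exact Finset.dvd_prod_of_mem id hP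
  exact Nat.le_of_dvd (Nat.pos_of_ne_zero hn)
    (hirr.natDegree_dvd_of_dvd_X_pow_card_pow_sub_X (hPr.trans h2))

theorem H_pos [Finite F] (α : ℝ) (f : F[X]) (hf : 1 ≤ (rad f).natDegree) : 0 < H α f := by
  unfold H nrm
  have hq : (1 : ℝ) < (Nat.card F : ℝ) := by exact_mod_cast one_lt_q (F := F)
  have h1 : (1 : ℝ) < (Nat.card F : ℝ) ^ (rad f).natDegree := one_lt_pow₀ hq (by omega)
  apply div_pos (by linarith)
  exact Real.rpow_pos_of_pos (Real.log_pos h1) _

/-- `log H_α(f) = D log q - α ω log (D log q)`. -/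
theorem log_H [Finite F] (α : ℝ) (f : F[X]) (hf : 1 ≤ (rad f).natDegree) :
    Real.log (H α f) = ((rad f).natDegree : ℝ) * Real.log (Nat.card F)
      - α * om f * Real.log (((rad f).natDegree : ℝ) * Real.log (Nat.card F)) := by
  unfold H nrm
  have hq : (1 : ℝ) < (Nat.card F : ℝ) := by exact_mod_cast one_lt_q (F := F)
  have h1 : (1 : ℝ) < (Nat.card F : ℝ) ^ (rad f).natDegree := one_lt_pow₀ hq (by omega)
  have h2 := Real.log_pos h1
  rw [Real.log_div (by linarith) (Real.rpow_pos_of_pos h2 _).ne', Real.log_rpow h2,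
    Real.log_pow]

end Pool.Agent.helper58.FF
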