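import Pool.Agent.helper58.FF.Lower

open Polynomial UniqueFactorizationMonoid

namespace Pool.Agent.helper58.FF

variable {F : Type} [Field F]

/-- the monic triple `(X^(q^n-1) - 1) + 1 = X^(q^n-1)` -/
noncomputable def tri (F : Type) [Field F] (n : ℕ) : F[X] × F[X] × F[X] :=
  (X ^ (Nat.card F ^ n - 1) - 1, 1, X ^ (Nat.card F ^ n - 1))

theorem tri_ineq [Finite F] {α K C : ℝ} (hα : 0 ≤ α) (hK : 0 < K) (hC : 0 < C)
    (h : K * (1 - α) < 1) :
    ∃ n0 : ℕ, ∀ n : ℕ, n0 ≤ n → n ≠ 0 ∧
      C * H α ((tri F n).1 * (tri F n).2.1 * (tri F n).2.2) ^ K < nrm (tri F n).2.2 := by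
  set q : ℝ := (Nat.card F : ℝ) with hq
  have hq2 : (2 : ℝ) ≤ q := by
    rw [hq]; exact_mod_cast one_lt_q (F := F)
  have hlq : 0 < Real.log q := Real.log_pos (by linarith)
  set δ : ℝ := 1 - K * (1 - α) with hδ
  have hδ0 : 0 < δ := by rw [hδ]; linarith
  set M : ℝ := max (2 * K * α / (δ * Real.log q))
    (2 * (|Real.log C| + Real.log q) / (δ * Real.log q)) with hM
  refine ⟨⌈M⌉₊ + 1, ?_⟩
  intro n hn
  have hn0 : n ≠ 0 := by omega
  refine ⟨hn0, ?_⟩
  have hnM : M < n := by
    have h1 : M ≤ ⌈M⌉₊ := Nat.le_ceil M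
    have h2 : ((⌈M⌉₊ + 1 : ℕ) : ℝ) ≤ n := by exact_mod_cast hn
    push_cast at h2; linarith
  have hnpos : (0 : ℝ) < n := by exact_mod_cast Nat.pos_of_ne_zero hn0
  have hM1 : 2 * K * α < n * (δ * Real.log q) := by
    have := lt_of_le_of_lt (le_max_left _ _) hnM
    rwa [div_lt_iff₀ (by positivity)] at this
  have hM2 : 2 * (|Real.log C| + Real.log q) < n * (δ * Real.log q) := by
    have := lt_of_le_of_lt (le_max_right _ _) hnM
    rwa [div_lt_iff₀ (by positivity)] at this
  set f : F[X] := (tri F n).1 * (tri F n).2.1 * (tri F n).2.2 with hf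
  have hf' : f = (X ^ (Nat.card F ^ n - 1) - 1) * 1 * X ^ (Nat.card F ^ n - 1) := rfl
  have hdeg : (rad f).natDegree = Nat.card F ^ n := by rw [hf']; exact (rad_deg (F := F) hn0).1
  have hom : Nat.card F ^ n ≤ om f * n := by rw [hf']; exact om_ge (F := F) hn0
  set D : ℝ := q ^ n with hD
  have hdegR : ((rad f).natDegree : ℝ) = D := by rw [hdeg]; push_cast; rfl
  have hDpos : 0 < D := by positivity
  have hD2 : 2 ≤ D := by
    calc (2 : ℝ) ≤ q := hq2
      _ = q ^ 1 := (pow_one q).symm
      _ ≤ q ^ n := pow_le_pow_right₀ (by linarith) (Nat.pos_of_ne_zero hn0)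
  have hnD : (n : ℝ) ≤ D := by
    have h1 : n < Nat.card F ^ n := Nat.lt_pow_self (one_lt_q (F := F))
    calc (n : ℝ) ≤ ((Nat.card F ^ n : ℕ) : ℝ) := by exact_mod_cast h1.le
      _ = D := by push_cast; rfl
  have hD1 : 1 ≤ (rad f).natDegree := by
    rw [hdeg]; exact Nat.one_le_pow _ _ Nat.card_pos
  have homR : D ≤ om f * n := by
    have : ((Nat.card F ^ n : ℕ) : ℝ) ≤ ((om f * n : ℕ) : ℝ) := by exact_mod_cast hom
    push_cast at this; exact this
  have hHpos := H_pos (F := F) α f hD1
  have hlogH := log_H (F := F) α f hD1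
  rw [hdegR] at hlogH
  -- log (D log q) = n log q + log log q
  have hll : Real.log (D * Real.log q) = n * Real.log q + Real.log (Real.log q) := by
    rw [Real.log_mul hDpos.ne' hlq.ne', hD, Real.log_pow]
  have hll1 : -1 ≤ Real.log (Real.log q) := by
    have h1 : Real.log 2 ≤ Real.log q := Real.log_le_log (by norm_num) hq2
    have h2 : (0.5 : ℝ) ≤ Real.log q := by
      have := Real.log_two_gt_d9; linarith
    have h3 : Real.log (0.5) ≤ Real.log (Real.log q) := Real.log_le_log (by norm_num) h2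
    have h4 : Real.log (0.5) = - Real.log 2 := by
      rw [show (0.5 : ℝ) = 2⁻¹ by norm_num, Real.log_inv]
    have := Real.log_two_lt_d9
    linarith
  have hll0 : 0 ≤ Real.log (D * Real.log q) := by
    apply Real.log_nonneg
    have h2 : (0.5 : ℝ) ≤ Real.log q := by
      have := Real.log_two_gt_d9
      have h1 : Real.log 2 ≤ Real.log q := Real.log_le_log (by norm_num) hq2
      linarith
    nlinarith
  -- lower bound of ω log(D log q)
  have hkey : D * Real.log q - D / n ≤ om f * Real.log (D * Real.log q) := by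
    have h1 : D / n ≤ om f := by
      rw [div_le_iff₀ hnpos]; exact homR
    calc D * Real.log q - D / n = D / n * (n * Real.log q + (-1)) := by
          field_simp; ring
      _ ≤ D / n * (n * Real.log q + Real.log (Real.log q)) := by
          apply mul_le_mul_of_nonneg_left _ (by positivity); linarith
      _ = D / n * Real.log (D * Real.log q) := by rw [hll]
      _ ≤ om f * Real.log (D * Real.log q) := mul_le_mul_of_nonneg_right h1 hll0
  have hlogH2 : Real.log (H α f) ≤ D * Real.log q * (1 - α) + α * (D / n) := by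
    rw [hlogH]
    have := mul_le_mul_of_nonneg_left hkey hα
    nlinarith
  have hc : nrm (tri F n).2.2 = q ^ (Nat.card F ^ n - 1) := by
    show (Nat.card F : ℝ) ^ (X ^ (Nat.card F ^ n - 1) : F[X]).natDegree = _
    rw [Polynomial.natDegree_X_pow]
  rw [hc]
  have hcpos : (0 : ℝ) < q ^ (Nat.card F ^ n - 1) := by positivity
  rw [← Real.log_lt_log_iff (mul_pos hC (Real.rpow_pos_of_pos hHpos K)) hcpos,
    Real.log_mul hC.ne' (Real.rpow_pos_of_pos hHpos K).ne', Real.log_rpow hHpos, Real.log_pow]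
  have hcast : ((Nat.card F ^ n - 1 : ℕ) : ℝ) = D - 1 := by
    rw [Nat.cast_sub (Nat.one_le_pow _ _ Nat.card_pos)]; push_cast; rfl
  rw [hcast]
  have h5 : K * Real.log (H α f) ≤ K * (D * Real.log q * (1 - α) + α * (D / n)) :=
    mul_le_mul_of_nonneg_left hlogH2 hK.le
  have h6 : Real.log C ≤ |Real.log C| := le_abs_self _
  have h7 : K * (α * (D / n)) ≤ D * (δ * Real.log q) / 2 := by
    have : K * (α * (D / n)) = (2 * K * α) * (D / n) / 2 := by ring
    rw [this]
    have h8 : (2 * K * α) * (D / n) ≤ n * (δ * Real.log q) * (D / n) :=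
      mul_le_mul_of_nonneg_right hM1.le (by positivity)
    have h9 : n * (δ * Real.log q) * (D / n) = D * (δ * Real.log q) := by field_simp
    linarith
  have h10 : |Real.log C| + Real.log q < D * (δ * Real.log q) / 2 := by
    have : n * (δ * Real.log q) ≤ D * (δ * Real.log q) :=
      mul_le_mul_of_nonneg_right hnD (by positivity)
    linarith
  have h11 : K * (D * Real.log q * (1 - α)) = D * Real.log q - D * (δ * Real.log q) := by
    rw [hδ]; ring
  nlinarith

theorem lower [Finite F] {α K : ℝ} (hα : 0 ≤ α) (hK : 0 < K) (h : K * (1 - α) < 1) (C : ℝ) :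
    {t : F[X] × F[X] × F[X] | t.1.Monic ∧ t.2.1.Monic ∧ t.2.2.Monic ∧
      IsCoprime t.1 t.2.1 ∧ t.1 + t.2.1 = t.2.2 ∧ derivative t.2.2 ≠ 0 ∧
      C * H α (t.1 * t.2.1 * t.2.2) ^ K < nrm t.2.2}.Infinite := by
  obtain ⟨n0, hn0⟩ := tri_ineq (F := F) (α := α) (K := K) (C := max C 1) hα hK
    (lt_of_lt_of_le one_pos (le_max_right _ _)) h
  apply Set.infinite_of_injective_forall_mem (f := fun m : ℕ => tri F (n0 + m))
  · intro a b hab
    have h1 : (tri F (n0 + a)).2.2 = (tri F (n0 + b)).2.2 := by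
      have := congrArg (fun t : F[X] × F[X] × F[X] => t.2.2) hab
      exact this
    have h2 : Nat.card F ^ (n0 + a) - 1 = Nat.card F ^ (n0 + b) - 1 := by
      have := congrArg Polynomial.natDegree h1
      change (X ^ (Nat.card F ^ (n0 + a) - 1) : F[X]).natDegree
        = (X ^ (Nat.card F ^ (n0 + b) - 1) : F[X]).natDegree at this
      rwa [Polynomial.natDegree_X_pow, Polynomial.natDegree_X_pow] at this
    have h3 : Nat.card F ^ (n0 + a) = Nat.card F ^ (n0 + b) := by
      have i1 : 1 ≤ Nat.card F ^ (n0 + a) := Nat.one_le_pow _ _ Nat.card_pos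
      have i2 : 1 ≤ Nat.card F ^ (n0 + b) := Nat.one_le_pow _ _ Nat.card_pos
      omega
    have := Nat.pow_right_injective (one_lt_q (F := F)) h3
    omega
  · intro m
    obtain ⟨hne, hlt⟩ := hn0 (n0 + m) (by omega)
    set n := n0 + m with hn
    have hD2 : 2 ≤ Nat.card F ^ n := by
      calc 2 ≤ Nat.card F := one_lt_q (F := F)
        _ ≤ Nat.card F ^ n := Nat.le_self_pow hne _
    have hH : 0 ≤ H α ((tri F n).1 * (tri F n).2.1 * (tri F n).2.2) ^ K := by
      apply Real.rpow_nonneg
      have hdeg := (rad_deg (F := F) hne).1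
      exact (H_pos (F := F) α _ (by
        show 1 ≤ (rad ((X ^ (Nat.card F ^ n - 1) - 1) * 1 * X ^ (Nat.card F ^ n - 1) : F[X])).natDegree
        rw [hdeg]; omega)).le
    refine ⟨?_, monic_one, monic_X_pow _, isCoprime_one_right, ?_, ?_, ?_⟩
    · show (X ^ (Nat.card F ^ n - 1) - 1 : F[X]).Monic
      have := monic_X_pow_sub_C (1 : F) (n := Nat.card F ^ n - 1) (by omega)
      rwa [C_1] at this
    · show (X ^ (Nat.card F ^ n - 1) - 1 : F[X]) + 1 = X ^ (Nat.card F ^ n - 1)
      ring
    · show derivative (X ^ (Nat.card F ^ n - 1) : F[X]) ≠ 0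
      have hcast : ((Nat.card F ^ n - 1 : ℕ) : F) = -1 := by
        have hz : ((Nat.card F ^ n : ℕ) : F) = 0 := by
          have : Fintype F := Fintype.ofFinite F
          push_cast
          rw [Nat.card_eq_fintype_card, FiniteField.cast_card_eq_zero]
          exact zero_pow hne
        rw [Nat.cast_sub (by omega), hz]; simp
      rw [derivative_X_pow, hcast]
      intro h0
      have := mul_eq_zero.mp h0
      rcases this with h | h
      · simp at h
      · exact pow_ne_zero _ X_ne_zero h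
    · refine lt_of_le_of_lt ?_ hlt
      exact mul_le_mul_of_nonneg_right (le_max_left _ _) hH

end Pool.Agent.helper58.FF
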